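import Pool.Agent.U136.DS.Stm
import Pool.Agent.U178.RT.ODE

/-!
Project DS, package ODED: global solutions of the truncated systems with dispersion.
Adapted from `Pool/Agent/U178/RT/ODE.lean` (helper178).
-/

set_option autoImplicit false

namespace Pool.Agent.U97.DS

open Set Filter Topology Metric
open scoped NNReal RealInnerProductSpace
open Pool.Agent.N983.RT Pool.Agent.U178.RT Pool.Agent.U136.DS

variable {n : ℕ}

theorem arr_one : Arr one := ⟨fun _ _ _ => rfl, fun _ _ _ => rfl, fun _ _ _ => rfl, fun _ _ _ => by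
  simp [one]⟩

/-- the dispersive term -/
noncomputable def dsp (lam : Wv → ℝ) (x : Vn n) : Vn n :=
  WithLp.toLp 2 fun p => -(Complex.I * (lam p.1.1 : ℂ) * ext x p.1.1 p.2)

theorem ext_dsp (lam : Wv → ℝ) (x : Vn n) (k : Wv) (i : Fin 3) :
    ext (dsp lam x) k i = -(Complex.I * (lam k : ℂ) * ext x k i) := by
  by_cases h : k ∈ cub n
  · rw [ext_mem _ h]
    rfl
  · rw [ext_out _ h, ext_out _ h]
    simp

theorem dsp_mem {lam : Wv → ℝ} (hl : ∀ k, lam (-k) = -lam k) {S : Set Wv} {x : Vn n}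
    (hx : x ∈ AdmS n S) : dsp lam x ∈ AdmS n S := by
  obtain ⟨⟨hx1, hx2, hx3⟩, hx4⟩ := hx
  refine ⟨⟨?_, ?_, ?_⟩, ?_⟩
  · funext i
    rw [ext_dsp, hx1]
    simp
  · intro k
    have h1 : dt (ext (dsp lam x) k) k = -(Complex.I * (lam k : ℂ)) * dt (ext x k) k := by
      unfold dt
      rw [Finset.mul_sum]
      exact Finset.sum_congr rfl fun i _ => by rw [ext_dsp]; ring
    rw [h1, hx2, mul_zero]
  · intro k i
    rw [ext_dsp, ext_dsp, hx3, hl, map_neg, map_mul, map_mul, Complex.conj_ofReal, Complex.conj_I]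
    push_cast
    ring
  · intro k hk
    funext i
    rw [ext_dsp, hx4 k hk]
    simp

theorem contDiff_dsp (lam : Wv → ℝ) : ContDiff ℝ 1 (dsp (n := n) lam) := by
  rw [contDiff_piLp 2]
  rintro ⟨⟨k, hk⟩, i⟩
  change ContDiff ℝ 1 fun x => -(Complex.I * (lam k : ℂ) * ext x k i)
  exact (contDiff_const.mul (contDiff_ext k i)).neg

theorem inner_dsp (lam : Wv → ℝ) (x : Vn n) : ⟪dsp lam x, x⟫ = 0 := by
  rw [inner_eq, Complex.re_sum]
  refine Finset.sum_eq_zero fun k _ => ?_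
  rw [Complex.re_sum]
  refine Finset.sum_eq_zero fun j _ => ?_
  rw [ext_dsp]
  simp only [Complex.mul_re, Complex.mul_im, Complex.neg_re, Complex.neg_im, Complex.conj_re,
    Complex.conj_im, Complex.I_re, Complex.I_im, Complex.ofReal_re, Complex.ofReal_im]
  ring

/-- the vector field -/
noncomputable def vf (ν : ℝ) (lam : Wv → ℝ) (x : Vn n) : Vn n := fld one ν 1 x + dsp lam x

theorem vf_mem {ν : ℝ} {lam : Wv → ℝ} (hl : ∀ k, lam (-k) = -lam k) {x : Vn n}
    (hx : x ∈ AdmS n univ) : vf ν lam x ∈ AdmS n univ :=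
  (AdmS n univ).add_mem (fld_mem arr_one ν 1 (fun _ _ m hm => (hm (mem_univ m)).elim) hx)
    (dsp_mem hl hx)

theorem lip_vf (ν : ℝ) (lam : Wv → ℝ) (R : ℝ) :
    ∃ K : ℝ≥0, LipschitzOnWith K (vf (n := n) ν lam) (closedBall 0 R) := by
  have h1 : ContDiff ℝ 1 (vf (n := n) ν lam) := (contDiff_fld one ν 1).add (contDiff_dsp lam)
  have h2 : Continuous fun x : Vn n => ‖fderiv ℝ (vf (n := n) ν lam) x‖₊ :=
    (h1.continuous_fderiv one_ne_zero).nnnorm
  obtain ⟨K, hK⟩ := (isCompact_closedBall (0 : Vn n) R).bddAbove_image h2.continuousOn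
  refine ⟨K, Convex.lipschitzOnWith_of_nnnorm_fderiv_le (𝕜 := ℝ)
    (fun x _ => (h1.differentiable one_ne_zero) x) (fun x hx => hK (mem_image_of_mem _ hx))
    (convex_closedBall _ _)⟩

theorem inner_vf (hA : S_ALG) {ν : ℝ} (hν : 0 < ν) (lam : Wv → ℝ) {x : Vn n}
    (hx : x ∈ AdmS n univ) : ⟪vf ν lam x, x⟫ ≤ 0 := by
  unfold vf
  rw [inner_add_left, inner_dsp, add_zero]
  exact inner_fld hA arr_one hν 1 hx

/-- **The truncated systems have global solutions.** -/
theorem t_ODED : S_ODED := by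
  intro hA ν lam n hν hlam u₀ hu₀
  have hl := hlam.1
  let x₀ : Vn n := WithLp.toLp 2 fun p => u₀ p.1.1 p.2
  have hx₀ : ext x₀ = Pool.Agent.N983.RT.cut n u₀ := by
    funext k i
    by_cases hk : k ∈ cub n
    · rw [ext_mem _ hk]
      simp [Pool.Agent.N983.RT.cut, hk, x₀]
    · rw [ext_out _ hk]
      simp [Pool.Agent.N983.RT.cut, hk]
  have hmem : x₀ ∈ AdmS n univ := by
    change Adm (ext x₀) ∧ ∀ k, k ∉ univ → ext x₀ k = 0
    rw [hx₀]
    refine ⟨⟨?_, ?_, ?_⟩, fun k hk => (hk (mem_univ k)).elim⟩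
    · unfold Pool.Agent.N983.RT.cut
      rw [if_pos zero_mem_cub, hu₀.zero]
    · intro k
      unfold Pool.Agent.N983.RT.cut
      split_ifs
      · exact hu₀.div k
      · simp [dt]
    · intro k i
      unfold Pool.Agent.N983.RT.cut
      by_cases hk : k ∈ cub n
      · rw [if_pos hk, if_pos (mem_cub_neg.2 hk), hu₀.real]
      · rw [if_neg hk, if_neg (fun h => hk (mem_cub_neg.1 h))]
        simp
  let F : AdmS n univ → AdmS n univ := fun x => ⟨vf ν lam x, vf_mem hl x.2⟩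
  have hF : ∀ R : ℝ, 0 < R → ∃ K : ℝ≥0, LipschitzOnWith K F (closedBall 0 R) := by
    intro R _
    obtain ⟨K, hK⟩ := lip_vf (n := n) ν lam R
    refine ⟨K, LipschitzOnWith.of_dist_le_mul fun x hx y hy => ?_⟩
    have h1 : ∀ z : AdmS n univ, z ∈ closedBall (0 : AdmS n univ) R →
        (z : Vn n) ∈ closedBall (0 : Vn n) R := by
      intro z hz
      rw [mem_closedBall, dist_zero_right] at hz ⊢
      exact hz
    exact hK.dist_le_mul x (h1 x hx) y (h1 y hy)
  have hd : ∀ x, ⟪F x, x⟫ ≤ 0 := fun x => inner_vf hA hν lam x.2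
  obtain ⟨a, ha0, ha, hab⟩ := global hF hd ⟨x₀, hmem⟩
  have hbd : ∀ t, 0 ≤ t → ∀ k i, ‖ext (a t : Vn n) k i‖ ≤ ‖x₀‖ := by
    intro t ht k i
    by_cases hk : k ∈ cub n
    · rw [ext_mem _ hk]
      exact (PiLp.norm_apply_le (a t : Vn n) _).trans (hab t ht)
    · rw [ext_out _ hk]
      simp
  refine ⟨fun t => ext (a t : Vn n), ⟨fun t _ => (a t).2.1, ?_, ?_⟩, ?_, ?_⟩
  · intro T s
    refine ⟨(∑ k ∈ cub n, (1 + nsq k) ^ s) * ‖x₀‖, fun t ht _ k i => ?_⟩
    have hpos : ∀ k, 0 ≤ (1 + nsq k) ^ s := fun k => by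
      have := nsq_nonneg k
      positivity
    by_cases hk : k ∈ cub n
    · refine mul_le_mul ?_ (hbd t ht k i) (norm_nonneg _)
        (Finset.sum_nonneg fun k _ => hpos k)
      exact Finset.single_le_sum (fun k _ => hpos k) hk
    · rw [ext_out _ hk]
      simp only [Pi.zero_apply, norm_zero, mul_zero]
      exact mul_nonneg (Finset.sum_nonneg fun k _ => hpos k) (norm_nonneg _)
  · intro t ht m hm j
    by_cases hmc : m ∈ cub n
    · have h1 : HasDerivWithinAt (fun t => (a t : Vn n)) (vf ν lam (a t)) (Ici 0) t :=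
        (AdmS n univ).subtypeL.hasFDerivAt.comp_hasDerivWithinAt t (ha t ht)
      have h2 := (PiLp.proj 2 (𝕜 := ℝ) (fun _ : Ix n => ℂ)
        (⟨m, hmc⟩, j)).hasFDerivAt.comp_hasDerivWithinAt t h1
      have h3 : ((PiLp.proj 2 (𝕜 := ℝ) (fun _ : Ix n => ℂ) (⟨m, hmc⟩, j)) (vf ν lam (a t))) =
          rhsD (cutg n one) ν lam (ext (a t : Vn n)) m j := by
        change (if m = 0 then (0 : ℂ) else rhs (cutg n one) ν 1 (ext (a t : Vn n)) m j) +
          -(Complex.I * (lam m : ℂ) * ext (a t : Vn n) m j) = _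
        rw [if_neg hm]
        unfold rhsD
        ring
      rw [h3] at h2
      refine h2.congr (fun s _ => ?_) ?_
      · rw [ext_mem _ hmc]
        rfl
      · rw [ext_mem _ hmc]
        rfl
    · have h4 : rhsD (cutg n one) ν lam (ext (a t : Vn n)) m j = 0 := by
        unfold rhsD
        rw [rhs_out _ _ _ hmc (ext_out _ hmc), ext_out _ hmc]
        simp
      rw [h4]
      simp only [ext_out _ hmc]
      exact hasDerivWithinAt_const _ _ _
  · change ext (a 0 : Vn n) = _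
    rw [ha0]
    exact hx₀
  · intro t _ k hk
    exact ext_out _ hk

end Pool.Agent.U97.DS
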